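import Pool.Agent.H36R2.CritProof

/-!
Critical finite commutative rings (Q1 of MP_c0911c_al).

Rings are associative and need not have an identity element. The definitions used in the
statement are in `Pool/Agent/H36R2/CritDefs.lean`.
-/

set_option autoImplicit false

namespace Pool.Agent.Results.MP_c0911c_al.CriticalIffSI

open Pool.Agent.H36R2.Crit

universe u

/-- **Critical finite commutative rings.** For a finite commutative ring `R` (not necessarily with
an identity element) the following are equivalent: `R` is critical, i.e. some identity holds in
all proper quotient rings of `R` but not in `R`; `R` is subdirectly irreducible; `R` is isomorphic
to a local ring with identity which has a smallest nonzero ideal, or `R` is nilpotent and its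
annihilator is a cyclic group of prime power order `p ^ (k + 1)`. -/
theorem result (R : Type u) [NonUnitalCommRing R] [Finite R] :
    [Critical R, SubdirectlyIrreducible R, LocalType R ∨ NilpotentType R].TFAE :=
  main R

end Pool.Agent.Results.MP_c0911c_al.CriticalIffSI
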